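import Pool.Agent.Y957.MC.All
import Pool.Agent.Y957.MC.Spec4

/-!
Exponential sums with the phases `κ log p(n)` are close to the exponential integrals.
-/

set_option autoImplicit false

namespace Pool.Agent.Y708.MC

open MeasureTheory Filter Finset Topology
open Pool.Agent.Y957.MC

/-- the exponential -/
noncomputable def ex (x : ℝ) : ℂ := Complex.exp (((x : ℝ) : ℂ) * Complex.I)

theorem norm_ex (x : ℝ) : ‖ex x‖ = 1 := Complex.norm_exp_ofReal_mul_I x

theorem ex_sub_le (x y : ℝ) : ‖ex x - ex y‖ ≤ |x - y| := by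
  have h1 : ex x - ex y = ex y * (ex (x - y) - 1) := by
    unfold ex
    rw [mul_sub, mul_one, ← Complex.exp_add]
    congr 2
    push_cast
    ring
  rw [h1, norm_mul, norm_ex, one_mul, ex]
  have h2 := Real.norm_exp_I_mul_ofReal_sub_one_le (x := x - y)
  rw [mul_comm, Real.norm_eq_abs] at h2
  exact h2

theorem ex_continuous : Continuous ex := by
  unfold ex
  fun_prop

/-- the data of the phase -/
theorem phase_bounds {φ : ℕ → ℝ → ℝ} {d : ℝ} (h : Phase φ d) : ∃ x₁ : ℝ, 1 ≤ x₁ ∧ ∀ x, x₁ ≤ x →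
    HasDerivAt (φ 0) (φ 1 x) x ∧ HasDerivAt (φ 1) (φ 2 x) x ∧ ContinuousAt (φ 2) x ∧
    d / (2 * x) ≤ φ 1 x ∧ φ 1 x ≤ 2 * d / x ∧ |φ 2 x| ≤ 2 * d / x ^ 2 := by
  obtain ⟨hd, ⟨x₀, h1⟩, h2⟩ := h
  have h3 := h2 0
  have h4 := h2 1
  simp only [pow_zero, zero_add, pow_one, one_mul, Nat.factorial_zero, Nat.cast_one] at h3
  simp only [pow_one, Nat.factorial_one, Nat.cast_one, one_mul] at h4
  have h5 := (h3.eventually (lt_mem_nhds (show d / 2 < d by linarith))).and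
    (h3.eventually (gt_mem_nhds (show d < 2 * d by linarith)))
  have h6 := h4.eventually (gt_mem_nhds (show d < 2 * d by linarith))
  have h7 := h4.eventually (lt_mem_nhds (show -(2 * d) < d by linarith))
  obtain ⟨x₁, hx₁⟩ := Filter.eventually_atTop.mp (h5.and (h6.and h7))
  refine ⟨max 1 (max x₀ x₁), le_max_left _ _, fun x hx => ?_⟩
  have hx1 : 1 ≤ x := (le_max_left _ _).trans hx
  have hx0 : x₀ ≤ x := (le_max_left _ _).trans ((le_max_right _ _).trans hx)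
  have hx2 : x₁ ≤ x := (le_max_right _ _).trans ((le_max_right _ _).trans hx)
  obtain ⟨⟨a1, a2⟩, a3, a4⟩ := hx₁ x hx2
  have hxp : 0 < x := by linarith
  refine ⟨h1 0 x hx0, h1 1 x hx0, (h1 2 x hx0).continuousAt, ?_, ?_, ?_⟩
  · rw [div_le_iff₀ (by positivity)]
    linarith
  · rw [le_div_iff₀ hxp]
    linarith
  · rw [le_div_iff₀ (by positivity), ← abs_of_pos (show 0 < x ^ 2 by positivity), ← abs_mul,
      abs_le]
    norm_num at a3 a4
    constructor <;> nlinarith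

/-- the integral of the exponential, first derivative test -/
theorem int_le {φ : ℕ → ℝ → ℝ} {d x₁ : ℝ} (hd : 0 < d) (hx₁ : 1 ≤ x₁)
    (h : ∀ x, x₁ ≤ x → HasDerivAt (φ 0) (φ 1 x) x ∧ HasDerivAt (φ 1) (φ 2 x) x ∧
      ContinuousAt (φ 2) x ∧ d / (2 * x) ≤ φ 1 x ∧ φ 1 x ≤ 2 * d / x ∧ |φ 2 x| ≤ 2 * d / x ^ 2)
    {a b κ : ℝ} (ha : x₁ ≤ a) (hab : a ≤ b) (hκ : κ ≠ 0) :
    ‖∫ v in a..b, ex (κ * φ 0 v)‖ ≤ 12 / d * (b / |κ|) := by
  have hpos : ∀ x, x₁ ≤ x → 0 < φ 1 x := fun x hx => by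
    have := (h x hx).2.2.2.1
    have h1 : 0 < d / (2 * x) := div_pos hd (by linarith)
    linarith
  have huI : Set.uIcc a b = Set.Icc a b := Set.uIcc_of_le hab
  have hge : ∀ x ∈ Set.uIcc a b, x₁ ≤ x := fun x hx => by
    rw [huI] at hx
    exact ha.trans hx.1
  have hκc : (κ : ℂ) ≠ 0 := by exact_mod_cast hκ
  have hφc : ∀ x, x₁ ≤ x → ((φ 1 x : ℝ) : ℂ) ≠ 0 := fun x hx => by exact_mod_cast (hpos x hx).ne'
  obtain ⟨g, hg⟩ : ∃ g : ℝ → ℂ, g = fun v => ex (κ * φ 0 v) := ⟨_, rfl⟩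
  obtain ⟨r, hr⟩ : ∃ r : ℝ → ℂ, r = fun v => g v * (φ 2 v : ℂ) / (Complex.I * κ * (φ 1 v : ℂ) ^ 2) :=
    ⟨_, rfl⟩
  have hgd : ∀ x, x₁ ≤ x → HasDerivAt g (g x * (Complex.I * κ * φ 1 x)) x := by
    intro x hx
    have h1 := ((h x hx).1.const_mul κ).ofReal_comp
    have h2 := (h1.mul_const Complex.I).cexp
    rw [hg]
    unfold ex
    convert h2 using 1
    push_cast
    ring
  have hf : ∀ x, x₁ ≤ x → HasDerivAt (fun v => g v / (Complex.I * κ * (φ 1 v : ℂ))) (g x - r x) x := by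
    intro x hx
    have h1 := ((h x hx).2.1).ofReal_comp
    have h2 := (hgd x hx).div (h1.const_mul (Complex.I * κ))
      (mul_ne_zero (mul_ne_zero Complex.I_ne_zero hκc) (hφc x hx))
    have h3 := hφc x hx
    have h4 : (g x * (Complex.I * κ * (φ 1 x : ℂ)) * (Complex.I * κ * (φ 1 x : ℂ)) -
        g x * (Complex.I * κ * (φ 2 x : ℂ))) / (Complex.I * κ * (φ 1 x : ℂ)) ^ 2 = g x - r x := by
      rw [hr]
      field_simp
    rw [h4] at h2
    exact h2
  have hgc : ContinuousOn g (Set.uIcc a b) := fun x hx =>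
    (hgd x (hge x hx)).continuousAt.continuousWithinAt
  have hrc : ContinuousOn r (Set.uIcc a b) := fun x hx => by
    rw [hr]
    have h1 := (hgd x (hge x hx)).continuousAt
    have h2 := (h x (hge x hx)).2.2.1
    have h3 := (h x (hge x hx)).2.1.continuousAt
    refine ContinuousAt.continuousWithinAt ?_
    refine ContinuousAt.div (h1.mul (Complex.continuous_ofReal.continuousAt.comp h2))
      (continuousAt_const.mul ((Complex.continuous_ofReal.continuousAt.comp h3).pow 2)) ?_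
    exact mul_ne_zero (mul_ne_zero Complex.I_ne_zero hκc) (pow_ne_zero _ (hφc x (hge x hx)))
  have hint := intervalIntegral.integral_eq_sub_of_hasDerivAt (fun x hx => hf x (hge x hx))
    (hgc.sub hrc).intervalIntegrable
  rw [intervalIntegral.integral_sub hgc.intervalIntegrable hrc.intervalIntegrable] at hint
  have hκp : 0 < |κ| := abs_pos.mpr hκ
  have hb : ∀ x, a ≤ x → x ≤ b → ‖g x / (Complex.I * κ * (φ 1 x : ℂ))‖ ≤ 2 / d * (b / |κ|) := by
    intro x hax hxb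
    have hx := ha.trans hax
    have h1 := hpos x hx
    have h2 := (h x hx).2.2.2.1
    have hx0 : 0 < x := by linarith
    rw [norm_div, norm_mul, norm_mul, Complex.norm_I, one_mul, Complex.norm_real, Complex.norm_real,
      Real.norm_eq_abs, Real.norm_eq_abs, abs_of_pos h1, hg, norm_ex, div_le_iff₀ (by positivity)]
    rw [div_le_iff₀ (by positivity)] at h2
    have h3 : 2 / d * (b / |κ|) * (|κ| * φ 1 x) = 2 * b * φ 1 x / d := by
      field_simp
    rw [h3, le_div_iff₀ hd, one_mul]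
    nlinarith
  have hrb : ∀ x ∈ Set.uIoc a b, ‖r x‖ ≤ 8 / (d * |κ|) := by
    intro x hx
    rw [Set.uIoc_of_le hab] at hx
    have hx1 := ha.trans hx.1.le
    have h1 := hpos x hx1
    obtain ⟨-, -, -, h2, -, h3⟩ := h x hx1
    have hx0 : 0 < x := by linarith
    rw [hr]
    simp only
    rw [norm_div, norm_mul, norm_mul, norm_mul, norm_pow, Complex.norm_I, one_mul,
      Complex.norm_real, Complex.norm_real, Complex.norm_real,
      Real.norm_eq_abs, Real.norm_eq_abs, Real.norm_eq_abs, abs_of_pos h1, hg, norm_ex, one_mul,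
      div_le_div_iff₀ (by positivity) (by positivity)]
    rw [div_le_iff₀ (by positivity)] at h2
    rw [le_div_iff₀ (by positivity)] at h3
    have h4 : d ^ 2 ≤ (φ 1 x * (2 * x)) ^ 2 := pow_le_pow_left₀ hd.le h2 2
    have h5 : |φ 2 x| * d ≤ 8 * φ 1 x ^ 2 := by
      have h6 : |φ 2 x| * d * x ^ 2 ≤ 8 * φ 1 x ^ 2 * x ^ 2 := by nlinarith [abs_nonneg (φ 2 x)]
      exact le_of_mul_le_mul_right h6 (by positivity)
    nlinarith
  have hri := intervalIntegral.norm_integral_le_of_norm_le_const hrb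
  rw [abs_of_nonneg (by linarith : 0 ≤ b - a)] at hri
  have h1 : ∫ v in a..b, ex (κ * φ 0 v) = ∫ v in a..b, g v := by rw [hg]
  rw [h1, show ∫ v in a..b, g v = (g b / (Complex.I * κ * (φ 1 b : ℂ)) -
    g a / (Complex.I * κ * (φ 1 a : ℂ))) + ∫ v in a..b, r v by rw [← hint]; ring]
  have h2 := hb a le_rfl hab
  have h3 := hb b hab le_rfl
  have h4 := norm_add_le (g b / (Complex.I * κ * (φ 1 b : ℂ)) -
    g a / (Complex.I * κ * (φ 1 a : ℂ))) (∫ v in a..b, r v)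
  have h5 := norm_sub_le (g b / (Complex.I * κ * (φ 1 b : ℂ))) (g a / (Complex.I * κ * (φ 1 a : ℂ)))
  have h6 : 8 / (d * |κ|) * (b - a) ≤ 8 / d * (b / |κ|) := by
    have : 8 / (d * |κ|) * (b - a) ≤ 8 / (d * |κ|) * b :=
      mul_le_mul_of_nonneg_left (by linarith) (by positivity)
    refine this.trans (le_of_eq ?_)
    field_simp
  have h7 : 12 / d * (b / |κ|) = 2 / d * (b / |κ|) + 2 / d * (b / |κ|) + 8 / d * (b / |κ|) := by
    ring
  rw [h7]
  linarith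

/-- comparison of a sum and an integral for a slowly varying phase -/
theorem sum_int_le {φ : ℕ → ℝ → ℝ} {d x₁ : ℝ} (hx₁ : 1 ≤ x₁)
    (h : ∀ x, x₁ ≤ x → HasDerivAt (φ 0) (φ 1 x) x ∧ HasDerivAt (φ 1) (φ 2 x) x ∧
      ContinuousAt (φ 2) x ∧ d / (2 * x) ≤ φ 1 x ∧ φ 1 x ≤ 2 * d / x ∧ |φ 2 x| ≤ 2 * d / x ^ 2)
    (hd : 0 < d) {M N : ℕ} (hM : x₁ ≤ M) (hMN : M ≤ N) (κ : ℝ) :
    ‖∑ n ∈ Ioc M N, ex (κ * φ 0 n) - ∫ v in (M : ℝ)..N, ex (κ * φ 0 v)‖ ≤
      N * (|κ| * (2 * d / M)) := by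
  have hM0 : (0 : ℝ) < M := by linarith
  have hcont : ∀ x, x₁ ≤ x → ContinuousAt (fun v => ex (κ * φ 0 v)) x := fun x hx =>
    (ex_continuous.continuousAt).comp (continuousAt_const.mul (h x hx).1.continuousAt)
  have hlip : ∀ u v : ℝ, (M : ℝ) ≤ u → u ≤ v → v ≤ u + 1 →
      ‖ex (κ * φ 0 v) - ex (κ * φ 0 u)‖ ≤ |κ| * (2 * d / M) := by
    intro u v hu huv hv
    refine (ex_sub_le _ _).trans ?_
    rw [← mul_sub, abs_mul]
    apply mul_le_mul_of_nonneg_left _ (abs_nonneg _)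
    have h1 : ∀ x ∈ Set.Icc u v, HasDerivWithinAt (φ 0) (φ 1 x) (Set.Icc u v) x := fun x hx =>
      (h x (hM.trans (hu.trans hx.1))).1.hasDerivWithinAt
    have h2 : ∀ x ∈ Set.Icc u v, ‖φ 1 x‖ ≤ 2 * d / M := fun x hx => by
      have hx' : x₁ ≤ x := hM.trans (hu.trans hx.1)
      obtain ⟨-, -, -, h3, h4, -⟩ := h x hx'
      have hx0 : 0 < x := by linarith
      have h5 : 0 < d / (2 * x) := by positivity
      rw [Real.norm_eq_abs, abs_of_pos (by linarith)]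
      refine h4.trans ?_
      exact div_le_div_of_nonneg_left (by linarith) hM0 (hu.trans hx.1)
    have h3 := (convex_Icc u v).norm_image_sub_le_of_norm_hasDerivWithin_le h1 h2
      (Set.left_mem_Icc.mpr huv) (Set.right_mem_Icc.mpr huv)
    rw [Real.norm_eq_abs, Real.norm_eq_abs, abs_of_nonneg (by linarith : 0 ≤ v - u)] at h3
    refine h3.trans ?_
    have h4 : 0 ≤ 2 * d / (M : ℝ) := by positivity
    nlinarith
  have hint : ∀ k ∈ Set.Ico M N, IntervalIntegrable (fun v => ex (κ * φ 0 v)) volume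
      ((k : ℕ) : ℝ) ((k + 1 : ℕ) : ℝ) := by
    intro k hk
    apply ContinuousOn.intervalIntegrable
    intro x hx
    rw [Set.uIcc_of_le (by push_cast; linarith)] at hx
    have h1 : (M : ℝ) ≤ k := by exact_mod_cast hk.1
    exact (hcont x (hM.trans (h1.trans hx.1))).continuousWithinAt
  have hsum := intervalIntegral.sum_integral_adjacent_intervals_Ico
    (a := fun k : ℕ => (k : ℝ)) hMN hint
  have hshift : ∑ n ∈ Ioc M N, ex (κ * φ 0 n) = ∑ k ∈ Ico M N, ex (κ * φ 0 ((k + 1 : ℕ) : ℝ)) := by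
    rw [Finset.sum_Ico_add' (fun n : ℕ => ex (κ * φ 0 n)) M N 1]
    congr 1
    ext k
    simp only [Finset.mem_Ioc, Finset.mem_Ico]
    omega
  rw [← hsum, hshift, ← Finset.sum_sub_distrib]
  refine (norm_sum_le _ _).trans ?_
  have hterm : ∀ k ∈ Ico M N, ‖ex (κ * φ 0 ((k + 1 : ℕ) : ℝ)) -
      ∫ v in ((k : ℕ) : ℝ)..((k + 1 : ℕ) : ℝ), ex (κ * φ 0 v)‖ ≤ |κ| * (2 * d / M) := by
    intro k hk
    rw [Finset.mem_Ico] at hk
    have hk1 : (M : ℝ) ≤ k := by exact_mod_cast hk.1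
    have h1 : ex (κ * φ 0 ((k + 1 : ℕ) : ℝ)) -
        ∫ v in ((k : ℕ) : ℝ)..((k + 1 : ℕ) : ℝ), ex (κ * φ 0 v) =
        ∫ v in ((k : ℕ) : ℝ)..((k + 1 : ℕ) : ℝ), (ex (κ * φ 0 ((k + 1 : ℕ) : ℝ)) - ex (κ * φ 0 v)) := by
      rw [intervalIntegral.integral_sub intervalIntegrable_const
        (hint k ⟨hk.1, hk.2⟩), intervalIntegral.integral_const]
      push_cast
      rw [add_sub_cancel_left, one_smul]
    rw [h1]
    have h2 := intervalIntegral.norm_integral_le_of_norm_le_const (a := ((k : ℕ) : ℝ))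
      (b := ((k + 1 : ℕ) : ℝ)) (C := |κ| * (2 * d / M))
      (f := fun v => ex (κ * φ 0 ((k + 1 : ℕ) : ℝ)) - ex (κ * φ 0 v)) (fun v hv => by
        rw [Set.uIoc_of_le (by push_cast; linarith)] at hv
        have h3 := hv.1
        have h4 := hv.2
        push_cast at h4
        exact hlip v _ (hk1.trans h3.le) hv.2 (by push_cast; linarith))
    push_cast at h2 ⊢
    rwa [add_sub_cancel_left, abs_one, mul_one] at h2
  refine (Finset.sum_le_sum hterm).trans ?_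
  rw [Finset.sum_const, Nat.card_Ico, nsmul_eq_mul]
  apply mul_le_mul_of_nonneg_right _ (by positivity)
  exact_mod_cast Nat.sub_le N M

theorem psg : S_PSG := by
  intro p hp hpm ε Q hε hε1
  have hgood := good_of_adm hp
  obtain ⟨φ, d, x₀, hph, hx₀⟩ := hp
  have hd : 0 < d := hph.1
  obtain ⟨x₁, hx₁, hb⟩ := phase_bounds hph
  obtain ⟨δ₁, hδ₁, C₁, hC₁, hexp⟩ := hgood.exp ε Q hε
  refine ⟨min δ₁ (1 / 2), lt_min hδ₁ (by norm_num), 4 * d / ε + 2 * C₁ + 12 / d, by positivity, ?_⟩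
  have hN1 : ∀ᶠ N : ℕ in atTop, max (max x₀ x₁) 1 + 1 ≤ ε * N ∧ 2 ≤ ε * N := by
    have h1 : Tendsto (fun N : ℕ => ε * (N : ℝ)) atTop atTop :=
      Tendsto.const_mul_atTop hε tendsto_natCast_atTop_atTop
    exact (h1.eventually_ge_atTop _).and (h1.eventually_ge_atTop _)
  filter_upwards [hexp, hN1, Filter.eventually_ge_atTop 1] with N hN hN2 hN3 κ hκ
  obtain ⟨hN2, hN4⟩ := hN2
  obtain ⟨M, hM⟩ : ∃ M : ℕ, M = ⌊ε * N⌋₊ := ⟨_, rfl⟩
  rw [← hM] at hN ⊢
  have hNr : (1 : ℝ) ≤ N := by exact_mod_cast hN3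
  have hM1 : ε * N - 1 < M := by
    rw [hM]
    exact Nat.sub_one_lt_floor _
  have hM2 : (M : ℝ) ≤ ε * N := by
    rw [hM]
    exact Nat.floor_le (by positivity)
  have hMN : M ≤ N := by
    have : (M : ℝ) ≤ N := hM2.trans (by nlinarith)
    exact_mod_cast this
  have hM3 : max (max x₀ x₁) 1 ≤ M := by linarith
  have hMx0 : x₀ ≤ M := (le_max_left _ _).trans ((le_max_left _ _).trans hM3)
  have hMx1 : x₁ ≤ M := (le_max_right _ _).trans ((le_max_left _ _).trans hM3)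
  have hM4 : ε * N / 2 ≤ M := by linarith
  have hMp : (0 : ℝ) < M := by linarith
  have e1 : ∑ n ∈ Ioc M N, Complex.exp (((κ * Real.log (p n) : ℝ) : ℂ) * Complex.I) =
      ∑ n ∈ Ioc M N, ex (κ * φ 0 n) := by
    apply Finset.sum_congr rfl
    intro n hn
    have h1 : (M : ℝ) ≤ n := by exact_mod_cast (Finset.mem_Ioc.mp hn).1.le
    rw [ex, (hx₀ n (hMx0.trans h1)).2]
  have e2 : ∫ v in (M : ℝ)..N, Complex.exp (((κ * Real.log (p v) : ℝ) : ℂ) * Complex.I) =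
      ∫ v in (M : ℝ)..N, ex (κ * φ 0 v) := by
    apply intervalIntegral.integral_congr
    intro v hv
    rw [Set.uIcc_of_le (by exact_mod_cast hMN)] at hv
    simp only
    rw [ex, (hx₀ v (hMx0.trans hv.1)).2]
  rw [e2]
  have hpow1 : (N : ℝ) ^ (1 / 2 : ℝ) ≤ (N : ℝ) ^ (1 - min δ₁ (1 / 2)) :=
    Real.rpow_le_rpow_of_exponent_le hNr (by
      have := min_le_right δ₁ (1 / 2 : ℝ)
      linarith)
  have hpow2 : (N : ℝ) ^ (1 - δ₁) ≤ (N : ℝ) ^ (1 - min δ₁ (1 / 2)) :=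
    Real.rpow_le_rpow_of_exponent_le hNr (by
      have := min_le_left δ₁ (1 / 2 : ℝ)
      linarith)
  have hsq : (N : ℝ) ^ (1 / 2 : ℝ) * (N : ℝ) ^ (1 / 2 : ℝ) = N := by
    rw [← Real.rpow_add (by linarith)]
    norm_num
  have hsp : 0 < (N : ℝ) ^ (1 / 2 : ℝ) := Real.rpow_pos_of_pos (by linarith) _
  obtain ⟨P, hP⟩ : ∃ P : ℝ, P = (N : ℝ) ^ (1 - min δ₁ (1 / 2)) := ⟨_, rfl⟩
  rw [← hP] at hpow1 hpow2 ⊢
  have hP0 : 0 < P := hsp.trans_le hpow1
  by_cases hcase : |κ| ≤ (N : ℝ) ^ (1 / 2 : ℝ)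
  · rw [e1]
    refine (sum_int_le hx₁ hb hd hMx1 hMN κ).trans ?_
    have h1 : 2 * d / (M : ℝ) ≤ 4 * d / ε / N := by
      rw [div_div, div_le_div_iff₀ hMp (by positivity)]
      nlinarith
    have h2 : N * (|κ| * (2 * d / M)) ≤ N * ((N : ℝ) ^ (1 / 2 : ℝ) * (4 * d / ε / N)) := by
      apply mul_le_mul_of_nonneg_left _ (by positivity)
      exact mul_le_mul hcase h1 (by positivity) hsp.le
    have h3 : N * ((N : ℝ) ^ (1 / 2 : ℝ) * (4 * d / ε / N)) = 4 * d / ε * (N : ℝ) ^ (1 / 2 : ℝ) := by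
      field_simp
    have h4 : 4 * d / ε * (N : ℝ) ^ (1 / 2 : ℝ) ≤ 4 * d / ε * P :=
      mul_le_mul_of_nonneg_left hpow1 (by positivity)
    have h5 : 0 ≤ 2 * C₁ * P := by positivity
    have h6 : 0 ≤ 12 / d * P := by positivity
    rw [h3] at h2
    linarith
  · push Not at hcase
    have hκ0 : κ ≠ 0 := fun h => by
      rw [h, abs_zero] at hcase
      linarith
    have h1 := hN κ hκ0 hκ
    have h2 := int_le hd hx₁ hb hMx1 (show (M : ℝ) ≤ N by exact_mod_cast hMN) hκ0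
    have hκp : 0 < |κ| := abs_pos.mpr hκ0
    have h3 : (N : ℝ) / |κ| ≤ (N : ℝ) ^ (1 / 2 : ℝ) := by
      rw [div_le_iff₀ hκp]
      nlinarith
    have h4 := norm_sub_le (∑ n ∈ Ioc M N, Complex.exp (((κ * Real.log (p n) : ℝ) : ℂ) * Complex.I))
      (∫ v in (M : ℝ)..N, ex (κ * φ 0 v))
    have h5 : C₁ * (N / |κ| + (N : ℝ) ^ (1 - δ₁)) ≤ C₁ * (P + P) :=
      mul_le_mul_of_nonneg_left (by linarith) hC₁.le
    have h6 : 12 / d * (N / |κ|) ≤ 12 / d * P :=
      mul_le_mul_of_nonneg_left (by linarith) (by positivity)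
    have h7 : 0 ≤ 4 * d / ε * P := by positivity
    linarith

end Pool.Agent.Y708.MC
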